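import Pool.Agent.H34.GM.Targets

/-!
MP_52e316_nt, board gmf_modules, row CMP: compactness of the units modulo scalars.
-/

set_option autoImplicit false

namespace Pool.Agent.H76.GM

open Pool.Agent.H34.GM

theorem sz_nonneg {m : ℕ} (z : Mat m) : 0 ≤ sz z := norm_nonneg _

theorem sz_le {m : ℕ} (z : Mat m) (r : ℝ) (hr : 0 ≤ r) : sz z ≤ r ↔ ∀ i j, |z i j| ≤ r := by
  unfold sz
  rw [pi_norm_le_iff_of_nonneg hr]
  constructor
  · intro h i j
    have h1 := (pi_norm_le_iff_of_nonneg hr).1 (h i) j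
    rwa [Real.norm_eq_abs] at h1
  · intro h i
    rw [pi_norm_le_iff_of_nonneg hr]
    intro j
    rw [Real.norm_eq_abs]
    exact h i j

theorem le_sz {m : ℕ} (z : Mat m) (i j : Fin m) : |z i j| ≤ sz z :=
  (sz_le z _ (sz_nonneg z)).1 le_rfl i j

theorem sz_mul {m : ℕ} (a b : Mat m) : sz (a * b) ≤ m * sz a * sz b := by
  have h0 : 0 ≤ (m : ℝ) * sz a * sz b :=
    mul_nonneg (mul_nonneg (Nat.cast_nonneg m) (sz_nonneg a)) (sz_nonneg b)
  rw [sz_le _ _ h0]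
  intro i j
  rw [Matrix.mul_apply]
  refine (Finset.abs_sum_le_sum_abs _ _).trans ?_
  have h1 : ∀ k ∈ (Finset.univ : Finset (Fin m)), |a i k * b k j| ≤ sz a * sz b := by
    intro k _
    rw [abs_mul]
    exact mul_le_mul (le_sz a i k) (le_sz b k j) (abs_nonneg _) (sz_nonneg a)
  refine (Finset.sum_le_sum h1).trans ?_
  rw [Finset.sum_const, Finset.card_univ, Fintype.card_fin, nsmul_eq_mul]
  exact le_of_eq (by ring)

theorem sz_smul {m : ℕ} (c : ℝ) (z : Mat m) : sz (c • z) ≤ |c| * sz z := by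
  rw [sz_le _ _ (mul_nonneg (abs_nonneg c) (sz_nonneg z))]
  intro i j
  rw [Matrix.smul_apply, smul_eq_mul, abs_mul]
  exact mul_le_mul_of_nonneg_left (le_sz z i j) (abs_nonneg c)

theorem abs_det_le {m : ℕ} (z : Mat m) (x : ℝ) (hx : ∀ i j, |z i j| ≤ x) :
    |z.det| ≤ (m.factorial : ℝ) * x ^ m := by
  have h := Matrix.det_le (A := z) (abv := (AbsoluteValue.abs : AbsoluteValue ℝ ℝ)) (x := x) hx
  rw [Fintype.card_fin, nsmul_eq_mul] at h
  exact h

theorem aN_pow {m : ℕ} (hm : 1 ≤ m) (z : Mat m) : aN z ^ m = |z.det| := by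
  unfold aN
  rw [one_div]
  exact Real.rpow_inv_natCast_pow (abs_nonneg _) (by omega)

theorem aN_pos {m : ℕ} (z : Mat m) (h : z.det ≠ 0) : 0 < aN z :=
  Real.rpow_pos_of_pos (abs_pos.2 h) _

theorem sz_inv_le {m : ℕ} (B : Mat m) (x : ℝ) (hx1 : 1 ≤ x) (hx : sz B ≤ x) (hd : |B.det| = 1) :
    sz B⁻¹ ≤ (m.factorial : ℝ) * x ^ m := by
  have h0 : 0 ≤ (m.factorial : ℝ) * x ^ m := by positivity
  rw [sz_le _ _ h0]
  intro i j
  rw [Matrix.inv_def, Matrix.smul_apply, smul_eq_mul, abs_mul]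
  have h1 : |Ring.inverse B.det| = 1 := by
    rw [Ring.inverse_eq_inv', abs_inv, hd, inv_one]
  rw [h1, one_mul, Matrix.adjugate_apply]
  apply abs_det_le
  intro a b
  have hB := (sz_le B x (by linarith)).1 hx
  by_cases h : a = j
  · subst h
    rw [Matrix.updateRow_self]
    by_cases h2 : b = i
    · subst h2
      rw [Pi.single_eq_same, abs_one]; exact hx1
    · rw [Pi.single_eq_of_ne h2, abs_zero]; linarith
  · rw [Matrix.updateRow_ne h]
    exact hB a b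

theorem pf_CMP (hN : T_NRD) (hF : T_FIC) (hM : T_MNK) : T_CMP := by
  intro m O b hm hO
  obtain ⟨C0, hC0, hM⟩ := hM m O b hm hO
  obtain ⟨A, hA, hF⟩ := hF m O b hm hO ((m.factorial : ℝ) * C0 ^ m)
  obtain ⟨_, _, _, hU⟩ := hN m O b hm hO
  set C1 : ℝ := ∑ a ∈ A, (m : ℝ) * sz (a⁻¹) * C0 + 1 with hC1
  have hterm : ∀ a : Mat m, 0 ≤ (m : ℝ) * sz (a⁻¹) * C0 := fun a =>
    mul_nonneg (mul_nonneg (Nat.cast_nonneg m) (sz_nonneg _)) hC0.le
  have hC1one : 1 ≤ C1 := by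
    have : 0 ≤ ∑ a ∈ A, (m : ℝ) * sz (a⁻¹) * C0 := Finset.sum_nonneg fun a _ => hterm a
    rw [hC1]; linarith
  have hCC : 0 ≤ (m.factorial : ℝ) * C1 ^ m := by positivity
  refine ⟨(m.factorial : ℝ) * C1 ^ m + C1, by linarith, ?_⟩
  intro g hg
  obtain ⟨α, hα, hα0, hαg⟩ := hM g hg
  have haN := aN_pos g hg
  have hdg : 0 < |g.det| := abs_pos.2 hg
  have hdet : |α.det| ≤ (m.factorial : ℝ) * C0 ^ m := by
    have h1 := abs_det_le (α * g) (C0 * aN g) (fun i j => (le_sz _ i j).trans hαg)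
    rw [Matrix.det_mul, abs_mul, mul_pow, aN_pow hm] at h1
    have h2 : |α.det| * |g.det| ≤ ((m.factorial : ℝ) * C0 ^ m) * |g.det| := by linarith
    exact le_of_mul_le_mul_right h2 hdg
  obtain ⟨a, ha, γ, hγ, hαγ⟩ := hF α hα hα0 hdet
  have ha0 : a.det ≠ 0 := hO.dvn a (hA a ha).1 (hA a ha).2
  have haU : IsUnit a.det := isUnit_iff_ne_zero.2 ha0
  have hγg : γ * g = a⁻¹ * (α * g) := by
    rw [hαγ, Matrix.mul_assoc a γ g, ← Matrix.mul_assoc a⁻¹ a, Matrix.nonsing_inv_mul a haU,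
      Matrix.one_mul]
  have hsz : sz (γ * g) ≤ C1 * aN g := by
    rw [hγg]
    refine (sz_mul _ _).trans ?_
    have h1 : (m : ℝ) * sz (a⁻¹) * sz (α * g) ≤ (m : ℝ) * sz (a⁻¹) * (C0 * aN g) :=
      mul_le_mul_of_nonneg_left hαg (mul_nonneg (Nat.cast_nonneg m) (sz_nonneg _))
    have h2 : (m : ℝ) * sz (a⁻¹) * C0 ≤ ∑ a ∈ A, (m : ℝ) * sz (a⁻¹) * C0 :=
      Finset.single_le_sum (f := fun a : Mat m => (m : ℝ) * sz (a⁻¹) * C0)
        (fun a _ => hterm a) ha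
    have h3 : (m : ℝ) * sz (a⁻¹) * C0 ≤ C1 := by rw [hC1]; linarith
    have h4 : (m : ℝ) * sz (a⁻¹) * (C0 * aN g) = ((m : ℝ) * sz (a⁻¹) * C0) * aN g := by ring
    rw [h4] at h1
    exact h1.trans (mul_le_mul_of_nonneg_right h3 haN.le)
  refine ⟨γ, hγ, hsz.trans (mul_le_mul_of_nonneg_right (by linarith) haN.le), ?_⟩
  -- the inverse
  set B : Mat m := (aN g)⁻¹ • (γ * g) with hB
  have hBsz : sz B ≤ C1 := by
    refine (sz_smul _ _).trans ?_
    rw [abs_of_pos (inv_pos.2 haN)]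
    have h1 := mul_le_mul_of_nonneg_left hsz (inv_pos.2 haN).le
    refine h1.trans (le_of_eq ?_)
    field_simp
  have hBdet : |B.det| = 1 := by
    rw [hB, Matrix.det_smul, Fintype.card_fin, abs_mul, Matrix.det_mul, abs_mul, hU γ hγ, one_mul,
      abs_pow, abs_of_pos (inv_pos.2 haN), ← aN_pow hm g, ← mul_pow, inv_mul_cancel₀ haN.ne',
      one_pow]
  have hBinv := sz_inv_le B C1 hC1one hBsz hBdet
  have hγgdet : (γ * g).det ≠ 0 := by
    rw [Matrix.det_mul]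
    refine mul_ne_zero (fun h => ?_) hg
    have := hU γ hγ
    rw [h, abs_zero] at this
    exact zero_ne_one this
  have hinv : (γ * g)⁻¹ = (aN g)⁻¹ • B⁻¹ := by
    have hunit : IsUnit (γ * g).det := isUnit_iff_ne_zero.2 hγgdet
    have h1 : γ * g = (aN g) • B := by
      rw [hB, smul_smul, mul_inv_cancel₀ haN.ne', one_smul]
    have hBu : IsUnit B.det := by
      refine isUnit_iff_ne_zero.2 fun h => ?_
      rw [h, abs_zero] at hBdet
      exact zero_ne_one hBdet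
    apply Matrix.inv_eq_right_inv
    rw [h1, Matrix.smul_mul, Matrix.mul_smul, smul_smul, mul_inv_cancel₀ haN.ne', one_smul,
      Matrix.mul_nonsing_inv B hBu]
  rw [hinv]
  refine (sz_smul _ _).trans ?_
  rw [abs_of_pos (inv_pos.2 haN), mul_comm]
  exact mul_le_mul_of_nonneg_right (by linarith) (inv_pos.2 haN).le

end Pool.Agent.H76.GM
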